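import Pool.Agent.N561.A.Stm

/-!
# Monotonicity of the kernel at the nodes

Sub-task 134 (`S_MONO`) of project VS.
-/

set_option autoImplicit false

namespace Pool.Agent.N380.SMono

open Filter Finset Topology Metric
open Pool.Agent.W711.HT Pool.Agent.N561
open scoped Real

/-- the trigonometric identity behind the recurrence -/
theorem trig_id (a b h : ℝ) :
    Real.sin (2 * a + h) * (Real.sin b ^ 3 + Real.sin (b + h) * Real.sin (a - b + h) *
      Real.sin (a + b)) =
    Real.sin (a + h) ^ 3 * Real.sin (a + b) - Real.sin a ^ 3 * Real.sin (a - b + h) := by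
  have key : Complex.sin (2 * a + h) * (Complex.sin b ^ 3 + Complex.sin (b + h) *
      Complex.sin (a - b + h) * Complex.sin (a + b)) =
    Complex.sin (a + h) ^ 3 * Complex.sin (a + b) -
      Complex.sin a ^ 3 * Complex.sin (a - b + h) := by
    obtain ⟨A, hA⟩ : ∃ A, A = Complex.exp (a * Complex.I) := ⟨_, rfl⟩
    obtain ⟨B, hB⟩ : ∃ B, B = Complex.exp (b * Complex.I) := ⟨_, rfl⟩
    obtain ⟨E, hE⟩ : ∃ E, E = Complex.exp (h * Complex.I) := ⟨_, rfl⟩
    have hA0 : A ≠ 0 := by rw [hA]; exact Complex.exp_ne_zero _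
    have hB0 : B ≠ 0 := by rw [hB]; exact Complex.exp_ne_zero _
    have hE0 : E ≠ 0 := by rw [hE]; exact Complex.exp_ne_zero _
    have hsin : ∀ x : ℂ, ∀ X : ℂ, X = Complex.exp (x * Complex.I) →
        Complex.sin x = (X⁻¹ - X) * Complex.I / 2 := by
      intro x X hX
      rw [Complex.sin, hX, ← Complex.exp_neg, neg_mul]
    rw [hsin (2 * a + h) (A ^ 2 * E) (by
        rw [hA, hE, ← Complex.exp_nat_mul, ← Complex.exp_add]; congr 1; push_cast; ring),
      hsin b B hB,
      hsin (b + h) (B * E) (by rw [hB, hE, ← Complex.exp_add]; congr 1; ring),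
      hsin (a - b + h) (A * B⁻¹ * E) (by
        rw [hA, hB, hE, ← Complex.exp_neg, ← Complex.exp_add, ← Complex.exp_add]
        congr 1; ring),
      hsin (a + b) (A * B) (by rw [hA, hB, ← Complex.exp_add]; congr 1; ring),
      hsin (a + h) (A * E) (by rw [hA, hE, ← Complex.exp_add]; congr 1; ring),
      hsin a A hA]
    field_simp
    ring
  exact_mod_cast key

/-- `T_d(x)` -/
noncomputable def TT (h : ℝ) (d : ℕ) (x : ℝ) : ℝ :=
  ∏ j ∈ range d, (4 * Real.sin ((x + j + 1) * h) * Real.sin ((x - j) * h))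

theorem TT_succ (h : ℝ) (d : ℕ) (x : ℝ) :
    TT h (d + 1) x = TT h d x * (4 * Real.sin ((x + d + 1) * h) * Real.sin ((x - d) * h)) := by
  unfold TT; rw [prod_range_succ]

theorem TT_up (h : ℝ) (d : ℕ) (x : ℝ) :
    TT h (d + 1) (x + 1) =
      4 * TT h d x * Real.sin ((x + d + 1) * h) * Real.sin ((x + d + 2) * h) := by
  induction d with
  | zero =>
    rw [TT_succ]
    simp only [TT, range_zero, prod_empty, Nat.cast_zero]
    ring_nf
  | succ d ih =>
    rw [TT_succ, ih, TT_succ]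
    push_cast
    rw [show x + 1 + ((d : ℝ) + 1) + 1 = x + (d + 1) + 2 by ring,
      show x + 1 - ((d : ℝ) + 1) = x - d by ring,
      show x + ((d : ℝ) + 1) + 1 = x + d + 2 by ring]
    ring

theorem TT_down (h : ℝ) (d : ℕ) (x : ℝ) :
    TT h (d + 1) (x - 1) =
      4 * TT h d x * Real.sin ((x - d - 1) * h) * Real.sin ((x - d) * h) := by
  induction d with
  | zero =>
    rw [TT_succ]
    simp only [TT, range_zero, prod_empty, Nat.cast_zero]
    ring_nf
  | succ d ih =>
    rw [TT_succ, ih, TT_succ]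
    push_cast
    rw [show x - 1 + ((d : ℝ) + 1) + 1 = x + d + 1 by ring,
      show x - 1 - ((d : ℝ) + 1) = x - (d + 1) - 1 by ring,
      show x - ((d : ℝ) + 1) = x - d - 1 by ring]
    ring

/-- `g` -/
noncomputable def gg (h : ℝ) (x : ℝ) : ℝ := 2 * Real.sin (x * h) ^ 3 / Real.cos (x * h)

/-- the identity between the coefficients -/
theorem coef (h : ℝ) (d : ℕ) (x : ℝ) (h1 : Real.cos (x * h) ≠ 0)
    (h2 : Real.cos ((x + 1) * h) ≠ 0) :
    Real.sin ((2 * x + 1) * h) * (16 * Real.sin ((d + 1) * h) ^ 4 * TT h d x +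
      4 * Real.sin ((d + 1) * h) * Real.sin ((d + 2) * h) * TT h (d + 1) x) =
    gg h (x + 1) * (TT h (d + 1) (x + 1) - TT h (d + 1) x) -
      gg h x * (TT h (d + 1) x - TT h (d + 1) (x - 1)) := by
  rw [TT_up, TT_down, TT_succ]
  have e := trig_id (x * h) ((d + 1) * h) h
  rw [show 2 * (x * h) + h = (2 * x + 1) * h by ring,
    show ((d : ℝ) + 1) * h + h = (d + 2) * h by ring,
    show x * h - ((d : ℝ) + 1) * h + h = (x - d) * h by ring,
    show x * h + ((d : ℝ) + 1) * h = (x + d + 1) * h by ring,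
    show x * h + h = (x + 1) * h by ring] at e
  have e1 : Real.sin ((x + d + 2) * h) - Real.sin ((x - d) * h) =
      2 * Real.cos ((x + 1) * h) * Real.sin ((d + 1) * h) := by
    rw [Real.sin_sub_sin]
    rw [show ((x + d + 2) * h - (x - d) * h) / 2 = (d + 1) * h by ring,
      show ((x + d + 2) * h + (x - d) * h) / 2 = (x + 1) * h by ring]
    ring
  have e2 : Real.sin ((x + d + 1) * h) - Real.sin ((x - d - 1) * h) =
      2 * Real.cos (x * h) * Real.sin ((d + 1) * h) := by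
    rw [Real.sin_sub_sin]
    rw [show ((x + d + 1) * h - (x - d - 1) * h) / 2 = (d + 1) * h by ring,
      show ((x + d + 1) * h + (x - d - 1) * h) / 2 = x * h by ring]
    ring
  have r1 : gg h (x + 1) * (4 * TT h d x * Real.sin ((x + d + 1) * h) *
      Real.sin ((x + d + 2) * h) - TT h d x * (4 * Real.sin ((x + d + 1) * h) *
      Real.sin ((x - d) * h))) = 16 * TT h d x * Real.sin ((d + 1) * h) *
        (Real.sin ((x + 1) * h) ^ 3 * Real.sin ((x + d + 1) * h)) := by
    rw [show 4 * TT h d x * Real.sin ((x + d + 1) * h) *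
      Real.sin ((x + d + 2) * h) - TT h d x * (4 * Real.sin ((x + d + 1) * h) *
      Real.sin ((x - d) * h)) = 4 * TT h d x * Real.sin ((x + d + 1) * h) *
        (Real.sin ((x + d + 2) * h) - Real.sin ((x - d) * h)) by ring, e1]
    unfold gg
    field_simp
    ring
  have r2 : gg h x * (TT h d x * (4 * Real.sin ((x + d + 1) * h) * Real.sin ((x - d) * h)) -
      4 * TT h d x * Real.sin ((x - d - 1) * h) * Real.sin ((x - d) * h)) =
      16 * TT h d x * Real.sin ((d + 1) * h) *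
        (Real.sin (x * h) ^ 3 * Real.sin ((x - d) * h)) := by
    rw [show TT h d x * (4 * Real.sin ((x + d + 1) * h) * Real.sin ((x - d) * h)) -
      4 * TT h d x * Real.sin ((x - d - 1) * h) * Real.sin ((x - d) * h) =
      4 * TT h d x * Real.sin ((x - d) * h) *
        (Real.sin ((x + d + 1) * h) - Real.sin ((x - d - 1) * h)) by ring, e2]
    unfold gg
    field_simp
    ring
  rw [r1, r2]
  linear_combination (16 * TT h d x * Real.sin ((d + 1) * h)) * e


theorem TT_zero (h : ℝ) (d n : ℕ) (hnd : n < d) : TT h d n = 0 := by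
  unfold TT
  apply prod_eq_zero (mem_range.2 hnd)
  simp

/-- `R_d(ψ_n) = T_d(n)` -/
theorem Rp_lat (N d n : ℕ) (hN : N ≠ 0) : Rp N d (lat N n) = (TT (π / N) d n : ℝ) := by
  unfold Rp TT
  rw [Complex.ofReal_prod]
  apply prod_congr rfl
  intro j _
  have hN' : (N : ℝ) ≠ 0 := by exact_mod_cast hN
  have e : 2 * Real.cos (lat N n) + 2 * Real.cos (phi N j) =
      4 * Real.sin (((n : ℝ) + j + 1) * (π / N)) * Real.sin (((n : ℝ) - j) * (π / N)) := by
    unfold lat phi
    rw [Real.cos_pi_sub]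
    have e1 := Real.cos_sub_cos (π * (2 * (j : ℝ) + 1) / N) (π * (2 * (n : ℝ) + 1) / N)
    rw [show (π * (2 * (j : ℝ) + 1) / N + π * (2 * (n : ℝ) + 1) / N) / 2 =
        ((n : ℝ) + j + 1) * (π / N) by field_simp; ring,
      show (π * (2 * (j : ℝ) + 1) / N - π * (2 * (n : ℝ) + 1) / N) / 2 =
        -(((n : ℝ) - j) * (π / N)) by field_simp; ring, Real.sin_neg] at e1
    linear_combination 2 * e1
  have e2 : ((2 * Real.cos (lat N n) + 2 * Real.cos (phi N j) : ℝ) : ℂ) =
      ((4 * Real.sin (((n : ℝ) + j + 1) * (π / N)) * Real.sin (((n : ℝ) - j) * (π / N)) : ℝ) : ℂ) :=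
    congrArg _ e
  rw [← e2]
  push_cast
  ring

/-- `U_d` -/
noncomputable def UU (N : ℕ) (φ : ℂ) (d : ℕ) : ℂ := Rp N d φ / (Sd N d : ℂ) ^ 4

/-- `p(x)` -/
noncomputable def PP (N : ℕ) (φ : ℂ) (x : ℝ) : ℂ :=
  ∑ d ∈ range ((N + 1) / 2), (TT (π / N) d x : ℂ) * UU N φ d

theorem k0_eq (N n : ℕ) (hN : N ≠ 0) (φ : ℂ) : k0 N (lat N n) φ = PP N φ n := by
  unfold k0 PP UU
  apply sum_congr rfl
  intro d _
  rw [Rp_lat N d n hN]
  ring

/-- `z` -/
noncomputable def zz (N : ℕ) (φ : ℂ) : ℂ := 2 * Complex.cos φ + 2 * (Real.cos (π / N) : ℂ)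

theorem UU_rec (N d : ℕ) (hN : d + 1 < N) (φ : ℂ) :
    zz N φ * UU N φ d = 16 * (Real.sin ((d + 1) * (π / N)) : ℂ) ^ 4 * UU N φ (d + 1) +
      4 * (Real.sin (d * (π / N)) : ℂ) * (Real.sin ((d + 1) * (π / N)) : ℂ) * UU N φ d := by
  have hN0 : (0 : ℝ) < N := by exact_mod_cast (by omega : 0 < N)
  have hs : 0 < Real.sin ((d + 1) * (π / N)) := by
    apply Real.sin_pos_of_pos_of_lt_pi
    · positivity
    · rw [← mul_div_assoc, div_lt_iff₀ hN0, mul_comm]
      apply mul_lt_mul_of_pos_left _ Real.pi_pos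
      exact_mod_cast hN
  have hs' : (Real.sin ((d + 1) * (π / N)) : ℂ) ≠ 0 := by exact_mod_cast hs.ne'
  have hR : Rp N (d + 1) φ = Rp N d φ * (2 * Complex.cos φ + 2 * (Real.cos (phi N d) : ℂ)) := by
    unfold Rp; rw [prod_range_succ]
  have hS : (Sd N (d + 1) : ℂ) = (Sd N d : ℂ) * (2 * (Real.sin ((d + 1) * (π / N)) : ℂ)) := by
    unfold Sd; rw [prod_range_succ]; push_cast
    rw [show (π : ℂ) * (d + 1) / N = (d + 1) * (π / N) by ring]
  have hSd : (Sd N d : ℂ) ≠ 0 := by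
    have : 0 < Sd N d := by
      unfold Sd
      apply prod_pos
      intro k hk
      have hk' := mem_range.1 hk
      apply mul_pos two_pos
      apply Real.sin_pos_of_pos_of_lt_pi
      · positivity
      · rw [div_lt_iff₀ hN0]
        apply mul_lt_mul_of_pos_left _ Real.pi_pos
        have : ((k + 1 : ℕ) : ℝ) < N := by exact_mod_cast (by omega : k + 1 < N)
        exact_mod_cast this
    exact_mod_cast this.ne'
  have hc : 2 * Real.cos (π / N) - 2 * Real.cos (phi N d) =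
      4 * Real.sin (d * (π / N)) * Real.sin ((d + 1) * (π / N)) := by
    have e1 := Real.cos_sub_cos (π / N) (phi N d)
    unfold phi at e1 ⊢
    rw [show (π / N + π * (2 * (d : ℝ) + 1) / N) / 2 = (d + 1) * (π / N) by ring,
      show (π / N - π * (2 * (d : ℝ) + 1) / N) / 2 = -(d * (π / N)) by ring,
      Real.sin_neg] at e1
    linear_combination 2 * e1
  have hc' : 2 * (Real.cos (π / N) : ℂ) - 2 * (Real.cos (phi N d) : ℂ) =
      4 * (Real.sin (d * (π / N)) : ℂ) * (Real.sin ((d + 1) * (π / N)) : ℂ) := by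
    exact_mod_cast congrArg (fun x : ℝ => (x : ℂ)) hc
  have e1 : 16 * (Real.sin ((d + 1) * (π / N)) : ℂ) ^ 4 * UU N φ (d + 1) =
      (2 * Complex.cos φ + 2 * (Real.cos (phi N d) : ℂ)) * UU N φ d := by
    unfold UU
    rw [hR, hS]
    generalize (Real.sin ((d + 1) * (π / N)) : ℂ) = σ at hs'
    generalize (Sd N d : ℂ) = S at hSd
    field_simp
    ring
  rw [e1, ← hc']
  unfold zz
  ring

/-- the recurrence -/
theorem recur (N n : ℕ) (hn : 2 * n + 3 ≤ N) (φ : ℂ) :
    (Real.sin ((2 * n + 1) * (π / N)) : ℂ) * zz N φ * PP N φ n =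
      (gg (π / N) (n + 1) : ℂ) * (PP N φ (n + 1) - PP N φ n) -
        (gg (π / N) n : ℂ) * (PP N φ n - PP N φ (n - 1)) := by
  obtain ⟨E, hE⟩ : ∃ E, (N + 1) / 2 = E + 1 := ⟨(N + 1) / 2 - 1, by omega⟩
  have hN0 : (0 : ℝ) < N := by exact_mod_cast (by omega : 0 < N)
  have hcos : ∀ m : ℕ, 2 * m < N → Real.cos (m * (π / N)) ≠ 0 := by
    intro m hm
    apply ne_of_gt
    apply Real.cos_pos_of_mem_Ioo
    constructor
    · have : (0 : ℝ) ≤ m * (π / N) := by positivity
      linarith [Real.pi_pos]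
    · rw [← mul_div_assoc, div_lt_div_iff₀ hN0 two_pos]
      have : (2 * m : ℝ) < N := by exact_mod_cast hm
      nlinarith [Real.pi_pos]
  have h1 := hcos n (by omega)
  have h2 := hcos (n + 1) (by omega)
  push_cast at h2
  have hz : zz N φ * PP N φ n = ∑ d ∈ range (E + 1), ((TT (π / N) d n : ℂ) *
      (16 * (Real.sin ((d + 1) * (π / N)) : ℂ) ^ 4) * UU N φ (d + 1)) +
      ∑ d ∈ range (E + 1), ((TT (π / N) d n : ℂ) * (4 * (Real.sin (d * (π / N)) : ℂ) *
        (Real.sin ((d + 1) * (π / N)) : ℂ)) * UU N φ d) := by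
    unfold PP
    rw [hE, mul_sum, ← sum_add_distrib]
    apply sum_congr rfl
    intro d hd
    have hd' := mem_range.1 hd
    have := UU_rec N d (by omega) φ
    rw [show zz N φ * ((TT (π / N) d n : ℂ) * UU N φ d) =
      (TT (π / N) d n : ℂ) * (zz N φ * UU N φ d) by ring, this]
    ring
  rw [sum_range_succ, TT_zero (π / N) E n (by omega), sum_range_succ' _ E] at hz
  simp only [Complex.ofReal_zero, zero_mul, add_zero, Nat.cast_zero, Real.sin_zero, mul_zero]
    at hz
  rw [mul_assoc, hz]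
  have hP : ∀ x y : ℝ, PP N φ x - PP N φ y = ∑ d ∈ range E,
      ((TT (π / N) (d + 1) x - TT (π / N) (d + 1) y : ℝ) : ℂ) * UU N φ (d + 1) := by
    intro x y
    unfold PP
    rw [hE, ← sum_sub_distrib, sum_range_succ']
    have : ((TT (π / N) 0 x : ℂ) * UU N φ 0 - (TT (π / N) 0 y : ℂ) * UU N φ 0) = 0 := by
      simp [TT]
    rw [this, add_zero]
    apply sum_congr rfl
    intro d _
    push_cast
    ring
  rw [hP, hP, ← sum_add_distrib, mul_sum, mul_sum, mul_sum, ← sum_sub_distrib]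
  apply sum_congr rfl
  intro d _
  have c := coef (π / N) d n h1 h2
  have c' : ((Real.sin ((2 * n + 1) * (π / N)) * (16 * Real.sin ((d + 1) * (π / N)) ^ 4 *
      TT (π / N) d n + 4 * Real.sin ((d + 1) * (π / N)) * Real.sin ((d + 2) * (π / N)) *
      TT (π / N) (d + 1) n) : ℝ) : ℂ) = ((gg (π / N) (n + 1) * (TT (π / N) (d + 1) (n + 1) -
      TT (π / N) (d + 1) n) - gg (π / N) n * (TT (π / N) (d + 1) n -
      TT (π / N) (d + 1) (n - 1)) : ℝ) : ℂ) := congrArg _ c
  push_cast at c' ⊢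
  rw [show ((d : ℂ) + 1 + 1) = d + 2 by ring]
  linear_combination (UU N φ (d + 1)) * c'


/-- one step -/
theorem step (N : ℕ) (φ : ℂ) (hz : 0 ≤ (zz N φ).re) : ∀ n : ℕ, 2 * n + 1 ≤ N →
    (0 ≤ ((starRingEnd ℂ) (PP N φ n) *
      ((gg (π / N) n : ℂ) * (PP N φ n - PP N φ (n - 1)))).re ∧
      (2 * n + 3 ≤ N → ‖PP N φ n‖ ≤ ‖PP N φ (n + 1)‖)) := by
  have hg : ∀ m : ℕ, 2 * m < N → 0 ≤ gg (π / N) m ∧ (1 ≤ m → 0 < gg (π / N) m) := by
    intro m hm
    have hN0 : (0 : ℝ) < N := by exact_mod_cast (by omega : 0 < N)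
    have hm' : (2 * m : ℝ) < N := by exact_mod_cast hm
    have hc : 0 < Real.cos (m * (π / N)) := by
      apply Real.cos_pos_of_mem_Ioo
      constructor
      · have : (0 : ℝ) ≤ m * (π / N) := by positivity
        linarith [Real.pi_pos]
      · rw [← mul_div_assoc, div_lt_div_iff₀ hN0 two_pos]
        nlinarith [Real.pi_pos]
    have hle : (m : ℝ) * (π / N) ≤ π := by
      rw [← mul_div_assoc, div_le_iff₀ hN0]
      nlinarith [Real.pi_pos]
    have hs : 0 ≤ Real.sin (m * (π / N)) :=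
      Real.sin_nonneg_of_nonneg_of_le_pi (by positivity) hle
    refine ⟨?_, fun h1 => ?_⟩
    · unfold gg; positivity
    · have h1' : (1 : ℝ) ≤ m := by exact_mod_cast h1
      have hs : 0 < Real.sin (m * (π / N)) := by
        apply Real.sin_pos_of_pos_of_lt_pi
        · positivity
        · rw [← mul_div_assoc, div_lt_iff₀ hN0]
          nlinarith [Real.pi_pos]
      unfold gg; positivity
  -- the step from `F_n` to `F_{n+1}`
  have hstep : ∀ n : ℕ, 2 * n + 3 ≤ N → 0 ≤ ((starRingEnd ℂ) (PP N φ n) *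
      ((gg (π / N) n : ℂ) * (PP N φ n - PP N φ (n - 1)))).re →
      0 ≤ ((starRingEnd ℂ) (PP N φ n) *
        ((gg (π / N) (n + 1) : ℂ) * (PP N φ (n + 1) - PP N φ n))).re := by
    intro n hn h0
    have hN0 : (0 : ℝ) < N := by exact_mod_cast (by omega : 0 < N)
    have r := recur N n hn φ
    have e : (gg (π / N) (n + 1) : ℂ) * (PP N φ (n + 1) - PP N φ n) =
        (gg (π / N) n : ℂ) * (PP N φ n - PP N φ (n - 1)) +
        (Real.sin ((2 * n + 1) * (π / N)) : ℂ) * zz N φ * PP N φ n := by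
      rw [r]; ring
    rw [e, mul_add, Complex.add_re]
    have hw : 0 ≤ Real.sin ((2 * n + 1) * (π / N)) := by
      apply Real.sin_nonneg_of_nonneg_of_le_pi (by positivity)
      rw [← mul_div_assoc, div_le_iff₀ hN0]
      have : (2 * n + 3 : ℝ) ≤ N := by exact_mod_cast hn
      nlinarith [Real.pi_pos]
    have e2 : (starRingEnd ℂ) (PP N φ n) *
        ((Real.sin ((2 * n + 1) * (π / N)) : ℂ) * zz N φ * PP N φ n) =
        ((Real.sin ((2 * n + 1) * (π / N)) * Complex.normSq (PP N φ n) : ℝ) : ℂ) * zz N φ := by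
      rw [Complex.ofReal_mul, ← Complex.mul_conj (PP N φ n)]
      ring
    have h3 : 0 ≤ ((starRingEnd ℂ) (PP N φ n) *
        ((Real.sin ((2 * n + 1) * (π / N)) : ℂ) * zz N φ * PP N φ n)).re := by
      rw [e2, Complex.re_ofReal_mul]
      exact mul_nonneg (mul_nonneg hw (Complex.normSq_nonneg _)) hz
    linarith
  -- growth of the modulus
  have hgrow : ∀ n : ℕ, 2 * n + 3 ≤ N → 0 ≤ ((starRingEnd ℂ) (PP N φ n) *
      ((gg (π / N) (n + 1) : ℂ) * (PP N φ (n + 1) - PP N φ n))).re →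
      ‖PP N φ n‖ ≤ ‖PP N φ (n + 1)‖ ∧ 0 ≤ ((starRingEnd ℂ) (PP N φ (n + 1)) *
        ((gg (π / N) (n + 1) : ℂ) * (PP N φ (n + 1) - PP N φ n))).re := by
    intro n hn h0
    have hgp : 0 < gg (π / N) (n + 1) := by
      have := (hg (n + 1) (by omega)).2 (by omega)
      exact_mod_cast this
    obtain ⟨g, hg'⟩ : ∃ g, g = gg (π / N) (n + 1) := ⟨_, rfl⟩
    rw [← hg'] at hgp h0 ⊢
    obtain ⟨a, ha⟩ : ∃ a, a = PP N φ n := ⟨_, rfl⟩
    obtain ⟨b, hb⟩ : ∃ b, b = PP N φ (n + 1) := ⟨_, rfl⟩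
    rw [← ha, ← hb] at h0 ⊢
    have h0' : 0 ≤ g * ((a.re) * (b.re - a.re) + a.im * (b.im - a.im)) := by
      have : ((starRingEnd ℂ) a * ((g : ℂ) * (b - a))).re =
          g * ((a.re) * (b.re - a.re) + a.im * (b.im - a.im)) := by
        simp [Complex.mul_re, Complex.mul_im]
        ring
      linarith
    have h1 : 0 ≤ (a.re) * (b.re - a.re) + a.im * (b.im - a.im) := by
      by_contra hcon
      push Not at hcon
      have := mul_neg_of_pos_of_neg hgp hcon
      linarith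
    constructor
    · rw [← sq_le_sq₀ (norm_nonneg _) (norm_nonneg _), Complex.sq_norm, Complex.sq_norm,
        Complex.normSq_apply, Complex.normSq_apply]
      nlinarith [sq_nonneg (b.re - a.re), sq_nonneg (b.im - a.im)]
    · have : ((starRingEnd ℂ) b * ((g : ℂ) * (b - a))).re =
          g * ((b.re) * (b.re - a.re) + b.im * (b.im - a.im)) := by
        simp [Complex.mul_re, Complex.mul_im]
        ring
      rw [this]
      apply mul_nonneg hgp.le
      nlinarith [sq_nonneg (b.re - a.re), sq_nonneg (b.im - a.im)]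
  intro n
  induction n with
  | zero =>
    intro h
    have h0 : gg (π / N) ((0 : ℕ) : ℝ) = 0 := by simp [gg]
    have hA : 0 ≤ ((starRingEnd ℂ) (PP N φ ((0 : ℕ) : ℝ)) * ((gg (π / N) ((0 : ℕ) : ℝ) : ℂ) *
        (PP N φ ((0 : ℕ) : ℝ) - PP N φ (((0 : ℕ) : ℝ) - 1)))).re := by
      rw [h0]; simp
    exact ⟨hA, fun h3 => (hgrow 0 h3 (hstep 0 h3 hA)).1⟩
  | succ n ih =>
    intro h
    obtain ⟨i1, i2⟩ := ih (by omega)
    have hB := (hgrow n (by omega) (hstep n (by omega) i1)).2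
    have hA : 0 ≤ ((starRingEnd ℂ) (PP N φ ((n + 1 : ℕ) : ℝ)) *
        ((gg (π / N) ((n + 1 : ℕ) : ℝ) : ℂ) *
        (PP N φ ((n + 1 : ℕ) : ℝ) - PP N φ (((n + 1 : ℕ) : ℝ) - 1)))).re := by
      push_cast
      rw [show ((n : ℝ) + 1 - 1) = n by ring]
      exact hB
    exact ⟨hA, fun h3 => (hgrow (n + 1) h3 (hstep (n + 1) h3 hA)).1⟩

theorem mono : S_MONO := by
  intro K hK hKc
  -- a margin on the compact set
  obtain ⟨δ, hδ0, hδ⟩ : ∃ δ : ℝ, 0 < δ ∧ ∀ φ ∈ K, -1 + δ ≤ Real.cos φ.re * Real.cosh φ.im := by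
    rcases K.eq_empty_or_nonempty with h | h
    · exact ⟨1, one_pos, fun φ hφ => absurd hφ (by rw [h]; simp)⟩
    · obtain ⟨φ₀, h0, hm⟩ := hKc.exists_isMinOn h
        (f := fun φ : ℂ => Real.cos φ.re * Real.cosh φ.im) (by fun_prop)
      refine ⟨Real.cos φ₀.re * Real.cosh φ₀.im + 1, ?_, fun φ hφ => ?_⟩
      · have := (hK h0).2.2.2
        linarith
      · have := hm hφ
        simp only [Set.mem_ofPred_eq] at this
        linarith
  have hlim : Tendsto (fun N : ℕ => Real.cos (π / N)) atTop (𝓝 1) := by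
    have h1 : Tendsto (fun N : ℕ => π / (N : ℝ)) atTop (𝓝 0) :=
      tendsto_const_div_atTop_nhds_zero_nat π
    have h2 := (Real.continuous_cos.tendsto 0).comp h1
    rwa [Real.cos_zero] at h2
  have hev : ∀ᶠ N : ℕ in atTop, 1 - δ < Real.cos (π / N) :=
    hlim.eventually (lt_mem_nhds (by linarith))
  filter_upwards [hev, eventually_ge_atTop 1] with N hN hN1 φ hφ n m hnm hm
  have hz : 0 ≤ (zz N φ).re := by
    have h1 := hδ φ hφ
    have e : zz N φ = ((2 * (Real.cos φ.re * Real.cosh φ.im) + 2 * Real.cos (π / N) : ℝ) : ℂ) +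
        ((-(2 * (Real.sin φ.re * Real.sinh φ.im)) : ℝ) : ℂ) * Complex.I := by
      unfold zz
      rw [Complex.cos_eq φ]
      push_cast
      ring
    rw [e, Complex.add_re, Complex.ofReal_re, Complex.re_ofReal_mul, Complex.I_re]
    linarith
  rw [k0_eq N n (by omega), k0_eq N m (by omega)]
  induction m, hnm using Nat.le_induction with
  | base => exact le_rfl
  | succ m hmn ih =>
    have h1 := ih (by omega)
    have h2 := (step N φ hz m (by omega)).2 (by omega)
    push_cast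
    exact h1.trans h2

end Pool.Agent.N380.SMono
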