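import Pool.Agent.N380.SPoly1

/-!
# The polynomial inequality `S_POLY`, assembly

Sub-task 128 of project VS.
-/

set_option autoImplicit false

namespace Pool.Agent.N380.SPoly

open Real

/-- the discriminant of case (a) -/
noncomputable def Df (H k : ℝ) : ℝ :=
  4 * (8 * H ^ 3 - 4 * k * H ^ 2 * (1 + H ^ 2)) *
    (8 * H ^ 3 - 4 * k + 12 * k * H ^ 2 - 8 / 5 * (H ^ 2 - 1)) -
    (12 * H ^ 2 * (1 - H ^ 2) - 8 * k * H * (1 + H ^ 2)) ^ 2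

theorem Df_pos (H k : ℝ) (h1 : 1 ≤ H) (h2 : H ≤ 71 / 50) (k1 : -(2 / 5) ≤ k) (k2 : k ≤ 3 / 5)
    (h3 : H ≤ 3127 / 2000 - 17 / 20 * k) : 0 < Df H k := by
  have u0 := ua0 H h1 h2
  have u1 : 2176 / 25 ≤ Df H (-(2 / 5)) :=
    le_of_le_of_eq (ua1 H h1 h2) (by unfold Df; ring)
  obtain ⟨A, hA⟩ : ∃ A, A = ((256) * H ^ 6 + (256) * H ^ 4) := ⟨_, rfl⟩
  rw [← hA] at u0
  rcases le_total H (2107 / 2000) with h | h
  · have u2 : 896 / 25 ≤ Df H (3 / 5) := le_of_le_of_eq (ua2 H h1 h) (by unfold Df; ring)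
    have e : Df H k = (3 / 5 - k) * Df H (-(2 / 5)) + (k + 2 / 5) * Df H (3 / 5) +
        A * ((k + 2 / 5) * (3 / 5 - k)) := by
      rw [hA]; unfold Df; ring
    have t1 : 0 ≤ (3 / 5 - k) * (Df H (-(2 / 5)) - 896 / 25) :=
      mul_nonneg (by linarith) (by linarith)
    have t2 : 0 ≤ (k + 2 / 5) * (Df H (3 / 5) - 896 / 25) :=
      mul_nonneg (by linarith) (by linarith)
    have t3 : 0 ≤ A * ((k + 2 / 5) * (3 / 5 - k)) :=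
      mul_nonneg (by linarith) (mul_nonneg (by linarith) (by linarith))
    rw [e]
    nlinarith
  · have u3 : 3669 / 100 ≤ Df H (20 / 17 * (3127 / 2000 - H)) :=
      le_of_le_of_eq (ua3 H h h2) (by unfold Df; ring)
    obtain ⟨l, hl⟩ : ∃ l, l = 20 / 17 * (3127 / 2000 - H) := ⟨_, rfl⟩
    rw [← hl] at u3
    have hl1 : k ≤ l := by rw [hl]; linarith
    have hl2 : 0 < l := by rw [hl]; linarith
    have e : (l + 2 / 5) * Df H k = (l - k) * Df H (-(2 / 5)) + (k + 2 / 5) * Df H l +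
        A * ((k + 2 / 5) * (l - k)) * (l + 2 / 5) := by
      rw [hA]; unfold Df; ring
    have t1 : 0 ≤ (l - k) * (Df H (-(2 / 5)) - 35) :=
      mul_nonneg (by linarith) (by linarith)
    have t2 : 0 ≤ (k + 2 / 5) * (Df H l - 35) :=
      mul_nonneg (by linarith) (by linarith)
    have t3 : 0 ≤ A * ((k + 2 / 5) * (l - k)) * (l + 2 / 5) :=
      mul_nonneg (mul_nonneg (by linarith) (mul_nonneg (by linarith) (by linarith)))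
        (by linarith)
    have key : 0 < (l + 2 / 5) * Df H k := by
      rw [e]
      nlinarith
    exact (pos_iff_pos_of_mul_pos key).1 (by linarith)

/-- case (a) -/
theorem Q1_pos (H k x : ℝ) (h1 : 1 ≤ H) (h2 : H ≤ 71 / 50) (k1 : -(2 / 5) ≤ k) (k2 : k ≤ 3 / 5)
    (h3 : H ≤ 3127 / 2000 - 17 / 20 * k) (hx : k ≤ x) :
    0 < 8 * H ^ 3 - 4 * k * H ^ 2 * (1 + H ^ 2) +
      x * (12 * H ^ 2 * (1 - H ^ 2) - 8 * k * H * (1 + H ^ 2)) +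
      x ^ 2 * (8 * H ^ 3 - 4 * k + 12 * k * H ^ 2) + 4 * x ^ 3 * (H ^ 2 - 1) := by
  have hD := Df_pos H k h1 h2 k1 k2 h3
  unfold Df at hD
  obtain ⟨c0, hc0⟩ : ∃ c, c = 8 * H ^ 3 - 4 * k * H ^ 2 * (1 + H ^ 2) := ⟨_, rfl⟩
  obtain ⟨c1, hc1⟩ : ∃ c, c = 12 * H ^ 2 * (1 - H ^ 2) - 8 * k * H * (1 + H ^ 2) := ⟨_, rfl⟩
  obtain ⟨c2, hc2⟩ : ∃ c, c = 8 * H ^ 3 - 4 * k + 12 * k * H ^ 2 - 8 / 5 * (H ^ 2 - 1) := ⟨_, rfl⟩
  rw [← hc0, ← hc1, ← hc2] at hD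
  have hS : 0 ≤ H ^ 2 - 1 := by nlinarith
  have hc2' : 0 < c2 := by
    rw [hc2]
    nlinarith [mul_nonneg (show (0:ℝ) ≤ k + 2 / 5 by linarith)
      (show (0:ℝ) ≤ 12 * H ^ 2 - 4 by nlinarith), mul_nonneg hS (show (0:ℝ) ≤ H by linarith)]
  have h4 : 0 < c2 * (c0 + x * c1 + x ^ 2 * c2) := by
    nlinarith [sq_nonneg (2 * c2 * x + c1)]
  have h5 : 0 < c0 + x * c1 + x ^ 2 * c2 := (pos_iff_pos_of_mul_pos h4).1 hc2'
  have h6 : 0 ≤ 4 * (H ^ 2 - 1) * x ^ 2 * (x + 2 / 5) :=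
    mul_nonneg (mul_nonneg (by linarith) (sq_nonneg x)) (by linarith)
  have e : 8 * H ^ 3 - 4 * k * H ^ 2 * (1 + H ^ 2) +
      x * (12 * H ^ 2 * (1 - H ^ 2) - 8 * k * H * (1 + H ^ 2)) +
      x ^ 2 * (8 * H ^ 3 - 4 * k + 12 * k * H ^ 2) + 4 * x ^ 3 * (H ^ 2 - 1) =
      (c0 + x * c1 + x ^ 2 * c2) + 4 * (H ^ 2 - 1) * x ^ 2 * (x + 2 / 5) := by
    rw [hc0, hc1, hc2]; ring
  rw [e]
  linarith

/-- case (b) -/
theorem Bf_pos (H k x : ℝ) (h1 : 1 ≤ H) (h2 : H ≤ 71 / 50) (k2 : k ≤ 3 / 5)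
    (h3 : H ≤ 3127 / 2000 - 17 / 20 * k) (hx1 : x ≤ k) (hx2 : -x ≤ k) : 0 < Bf H k x := by
  -- an upper end `l` of the range of `k`
  obtain ⟨l, hkl, hB, hP⟩ : ∃ l, k ≤ l ∧ 0 < Bf H l x ∧
      (0 ≤ x → 0 < Bf H x x) ∧ (x ≤ 0 → 0 < Bf H (-x) x) := by
    rcases le_total H (2107 / 2000) with h | h
    · exact ⟨3 / 5, k2, b3_0 H x h1 h (by linarith) (by linarith), fun hx =>
        b1_0 H x h1 h hx (by linarith), fun hx => b2_0 H x h1 h (by linarith) hx⟩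
    · exact ⟨20 / 17 * (3127 / 2000 - H), by linarith, b3_1 H x h h2 (by linarith) (by linarith),
        fun hx => b1_1 H x h h2 hx (by linarith), fun hx => b2_1 H x h h2 (by linarith) hx⟩
  -- the lower end `t`
  obtain ⟨t, htk, hT⟩ : ∃ t, t ≤ k ∧ 0 < Bf H t x := by
    rcases le_total 0 x with h | h
    · exact ⟨x, hx1, hP.1 h⟩
    · exact ⟨-x, hx2, hP.2 h⟩
  rcases hkl.eq_or_lt with h | h
  · rw [h]; exact hB
  have e : (l - t) * Bf H k x = (l - k) * Bf H t x + (k - t) * Bf H l x := by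
    unfold Bf; ring
  have key : 0 < (l - t) * Bf H k x := by
    rw [e]
    have t1 : 0 < (l - k) * Bf H t x := mul_pos (by linarith) hT
    have t2 : 0 ≤ (k - t) * Bf H l x := mul_nonneg (by linarith) hB.le
    linarith
  exact (pos_iff_pos_of_mul_pos key).1 (by linarith)

/-- case (c), `x = -κ` -/
theorem Q3_pos (H k x : ℝ) (h1 : 1 ≤ H) (hx0 : 0 < x) (hx1 : x ≤ 1) (hk1 : k ≤ x) (hk2 : -x < k) :
    0 < 8 * H ^ 3 - 8 * k * H ^ 2 + (-x) * (8 * H ^ 2 - 8 * H ^ 4 - 16 * k * H) +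
      (-x) ^ 2 * (-8 * H + 16 * H ^ 3 - 8 * k + 16 * k * H ^ 2) + 8 * (-x) ^ 3 * (H ^ 2 - 1) := by
  have e : 8 * H ^ 3 - 8 * k * H ^ 2 + (-x) * (8 * H ^ 2 - 8 * H ^ 4 - 16 * k * H) +
      (-x) ^ 2 * (-8 * H + 16 * H ^ 3 - 8 * k + 16 * k * H ^ 2) + 8 * (-x) ^ 3 * (H ^ 2 - 1) =
      8 * (x * (H ^ 2 - 1) * (H ^ 2 - x ^ 2) + (H ^ 3 + x ^ 2 * H * (2 * H ^ 2 - 1) -
        k * (H - x) ^ 2 + 2 * k * x ^ 2 * H ^ 2)) := by ring
  rw [e]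
  have hS : 0 ≤ H ^ 2 - 1 := by nlinarith
  have hHx : x ≤ H := by linarith
  have hS2 : 0 ≤ H ^ 2 - x ^ 2 := by nlinarith
  have a1 : 0 ≤ x * (H ^ 2 - 1) * (H ^ 2 - x ^ 2) := mul_nonneg (mul_nonneg hx0.le hS) hS2
  -- linear in `k`: check `k = x` and `k = -x`
  have b1 : 0 < H ^ 3 + x ^ 2 * H * (2 * H ^ 2 - 1) - x * (H - x) ^ 2 + 2 * x * x ^ 2 * H ^ 2 := by
    have c1 : (H - x) ^ 2 ≤ H ^ 2 := by nlinarith
    have c2 : x * (H - x) ^ 2 ≤ 1 * H ^ 2 := mul_le_mul hx1 c1 (sq_nonneg _) (by norm_num)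
    have c3 : H ^ 2 ≤ H ^ 3 := by nlinarith [sq_nonneg H]
    have c4 : 0 < x ^ 2 * H * (2 * H ^ 2 - 1) :=
      mul_pos (mul_pos (pow_pos hx0 2) (by linarith)) (by nlinarith)
    have c5 : 0 < 2 * x * x ^ 2 * H ^ 2 := by positivity
    linarith
  have b2 : 0 ≤ H ^ 3 + x ^ 2 * H * (2 * H ^ 2 - 1) - (-x) * (H - x) ^ 2 +
      2 * (-x) * x ^ 2 * H ^ 2 := by
    have c1 : x ^ 2 * (x * H ^ 2) ≤ x ^ 2 * H ^ 3 := by
      apply mul_le_mul_of_nonneg_left _ (sq_nonneg x)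
      have : x * H ^ 2 ≤ H * H ^ 2 := mul_le_mul_of_nonneg_right hHx (sq_nonneg H)
      nlinarith
    have c2 : 0 ≤ x * (H - x) ^ 2 := mul_nonneg hx0.le (sq_nonneg _)
    have c3 : x ^ 2 * H ≤ 1 * H := by
      apply mul_le_mul_of_nonneg_right _ (by linarith)
      nlinarith
    have c4 : H ≤ H ^ 3 := by nlinarith
    nlinarith
  have b3 : 0 < H ^ 3 + x ^ 2 * H * (2 * H ^ 2 - 1) - k * (H - x) ^ 2 + 2 * k * x ^ 2 * H ^ 2 := by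
    have e2 : (2 * x) * (H ^ 3 + x ^ 2 * H * (2 * H ^ 2 - 1) - k * (H - x) ^ 2 +
        2 * k * x ^ 2 * H ^ 2) = (k + x) * (H ^ 3 + x ^ 2 * H * (2 * H ^ 2 - 1) -
        x * (H - x) ^ 2 + 2 * x * x ^ 2 * H ^ 2) + (x - k) * (H ^ 3 +
        x ^ 2 * H * (2 * H ^ 2 - 1) - (-x) * (H - x) ^ 2 + 2 * (-x) * x ^ 2 * H ^ 2) := by ring
    have key : 0 < (2 * x) * (H ^ 3 + x ^ 2 * H * (2 * H ^ 2 - 1) - k * (H - x) ^ 2 +
        2 * k * x ^ 2 * H ^ 2) := by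
      rw [e2]
      have t1 := mul_pos (show 0 < k + x by linarith) b1
      have t2 := mul_nonneg (show 0 ≤ x - k by linarith) b2
      linarith
    exact (pos_iff_pos_of_mul_pos key).1 (by linarith)
  linarith

theorem poly : Pool.Agent.N561.S_POLY := by
  intro H k κ h1 h2 k1 k2 h3 hκ1 hκ2
  have hσ : 0 ≤ 1 - κ ^ 2 := by nlinarith
  have hτ : 0 ≤ 1 - k ^ 2 := by nlinarith
  obtain ⟨σ, hσe⟩ : ∃ σ, σ = √(1 - κ ^ 2) := ⟨_, rfl⟩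
  obtain ⟨τ, hτe⟩ : ∃ τ, τ = √(1 - k ^ 2) := ⟨_, rfl⟩
  have hσ0 : 0 ≤ σ := hσe ▸ Real.sqrt_nonneg _
  have hτ0 : 0 ≤ τ := hτe ▸ Real.sqrt_nonneg _
  have hσs : σ ^ 2 = 1 - κ ^ 2 := by rw [hσe]; exact Real.sq_sqrt hσ
  have hτs : τ ^ 2 = 1 - k ^ 2 := by rw [hτe]; exact Real.sq_sqrt hτ
  have hS : 0 ≤ H ^ 2 - 1 := by nlinarith
  have hc : 0 ≤ 8 * (H ^ 2 - 1) * (H + κ) ^ 2 := mul_nonneg (by linarith) (sq_nonneg _)
  unfold Pool.Agent.N561.NP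
  rw [← hσe, ← hτe]
  refine ⟨fun hk => ?_, fun hk => ?_⟩
  · have hs : 0 ≤ (2 - κ ^ 2 - k ^ 2) / 2 - σ * τ := by nlinarith [sq_nonneg (σ - τ)]
    have q := Q1_pos H k κ h1 h2 k1 k2 h3 hk.le
    have p := mul_pos (sub_pos.2 hk) q
    have r := mul_nonneg hc hs
    have e : (H + κ) ^ 2 * ((κ ^ 2 + (H ^ 2 - 1)) * (H + k) ^ 2 + 2 * H * κ *
        (1 - 2 * H * k - 3 * (k ^ 2 + (H ^ 2 - 1))) - 8 * (H ^ 2 - 1) * (σ * τ) + 1 -
        6 * H * k + 9 * (k ^ 2 + (H ^ 2 - 1))) - (H - κ) ^ 4 * (H + k) ^ 2 =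
        (κ - k) * (8 * H ^ 3 - 4 * k * H ^ 2 * (1 + H ^ 2) +
          κ * (12 * H ^ 2 * (1 - H ^ 2) - 8 * k * H * (1 + H ^ 2)) +
          κ ^ 2 * (8 * H ^ 3 - 4 * k + 12 * k * H ^ 2) + 4 * κ ^ 3 * (H ^ 2 - 1)) +
        8 * (H ^ 2 - 1) * (H + κ) ^ 2 * ((2 - κ ^ 2 - k ^ 2) / 2 - σ * τ) := by ring
    linarith
  · rcases le_or_gt (-κ) k with hb | hb
    · -- case (b)
      have hk0 : 0 ≤ k := by linarith
      have hk2 : k ^ 2 ≤ (3 / 5) ^ 2 := pow_le_pow_left₀ hk0 k2 2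
      have hτ1 : 4 / 5 ≤ τ := by
        rw [hτe]; exact Real.le_sqrt_of_sq_le (by linarith)
      have hσ1 : σ ≤ 1 := by
        rw [hσe]; exact Real.sqrt_le_one.2 (by linarith [sq_nonneg κ])
      have hκk : κ ^ 2 ≤ k ^ 2 := sq_le_sq' (by linarith) hk.le
      have hστ : τ ≤ σ := by
        rw [hτe, hσe]; exact Real.sqrt_le_sqrt (by linarith)
      have hs : 0 ≤ σ * τ - (1 - k ^ 2 + 4 / 9 * (k ^ 2 - κ ^ 2)) := by
        have e1 : σ * τ - (1 - k ^ 2 + 4 / 9 * (k ^ 2 - κ ^ 2)) =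
            (σ - τ) * (τ - 4 / 9 * (σ + τ)) := by
          have e2 : k ^ 2 = 1 - τ ^ 2 := by linarith
          have e3 : κ ^ 2 = 1 - σ ^ 2 := by linarith
          rw [e2, e3]; ring
        rw [e1]
        exact mul_nonneg (by linarith) (by linarith)
      have q := Bf_pos H k κ h1 h2 k2 h3 hk.le hb
      unfold Bf at q
      have p := mul_pos (sub_pos.2 hk) q
      have r := mul_nonneg hc hs
      have e : (H - κ) ^ 4 * (H + k) ^ 2 - (H + κ) ^ 2 * ((κ ^ 2 + (H ^ 2 - 1)) * (H + k) ^ 2 +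
          2 * H * κ * (1 - 2 * H * k - 3 * (k ^ 2 + (H ^ 2 - 1))) - 8 * (H ^ 2 - 1) * (σ * τ) + 1 -
          6 * H * k + 9 * (k ^ 2 + (H ^ 2 - 1))) =
          (k - κ) * (8 * H * (H ^ 2 * (1 - k * H) + 2 * H * κ * (1 - H ^ 2 - k * H) +
            κ ^ 2 * (1 + k * H)) + 32 / 9 * (H ^ 2 - 1) * (H + κ) ^ 2 * (k + κ)) +
          8 * (H ^ 2 - 1) * (H + κ) ^ 2 * (σ * τ - (1 - k ^ 2 + 4 / 9 * (k ^ 2 - κ ^ 2))) := by
        ring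
      linarith
    · -- case (c)
      obtain ⟨x, hx⟩ : ∃ x, x = -κ := ⟨_, rfl⟩
      have hκx : κ = -x := by rw [hx]; ring
      have hx0 : 0 < x := by linarith
      have hκk : k ^ 2 ≤ κ ^ 2 := by
        have := sq_le_sq' (show -x ≤ k by linarith) (show k ≤ x by linarith)
        rw [hκx]; linarith [neg_sq x]
      have hστ : σ ≤ τ := by
        rw [hτe, hσe]; exact Real.sqrt_le_sqrt (by linarith)
      have hs : 0 ≤ σ * τ - (1 - κ ^ 2) := by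
        have := mul_le_mul_of_nonneg_left hστ hσ0
        rw [← hσs, sq]; linarith
      have q := Q3_pos H k x h1 hx0 (by linarith) (by linarith) (by linarith)
      rw [← hκx] at q
      have p := mul_pos (sub_pos.2 hk) q
      have r := mul_nonneg hc hs
      have e : (H - κ) ^ 4 * (H + k) ^ 2 - (H + κ) ^ 2 * ((κ ^ 2 + (H ^ 2 - 1)) * (H + k) ^ 2 +
          2 * H * κ * (1 - 2 * H * k - 3 * (k ^ 2 + (H ^ 2 - 1))) - 8 * (H ^ 2 - 1) * (σ * τ) + 1 -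
          6 * H * k + 9 * (k ^ 2 + (H ^ 2 - 1))) =
          (k - κ) * (8 * H ^ 3 - 8 * k * H ^ 2 + κ * (8 * H ^ 2 - 8 * H ^ 4 - 16 * k * H) +
            κ ^ 2 * (-8 * H + 16 * H ^ 3 - 8 * k + 16 * k * H ^ 2) + 8 * κ ^ 3 * (H ^ 2 - 1)) +
          8 * (H ^ 2 - 1) * (H + κ) ^ 2 * (σ * τ - (1 - κ ^ 2)) := by ring
      linarith

end Pool.Agent.N380.SPoly
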