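import Pool.Agent.N906.SS.Stm
import Pool.Agent.N906.FH.Fin

/-!
# Project SS, part FINM: the limit for the modified Szpiro inequality
-/

set_option autoImplicit false

namespace Pool.Agent.N380.SS

open Finset Filter Topology Pool.Agent.N906.SZ Pool.Agent.N906.FH Pool.Agent.N906.SS

/-- the height of the curve -/
noncomputable def Ht (a b : ℤ) : ℝ := max (4 * |(a : ℝ)| ^ 3) (27 * (b : ℝ) ^ 2)

theorem abs_Dd_le (a b : ℤ) : |((Dd a b : ℤ) : ℝ)| ≤ 2 * Ht a b := by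
  have h1 : ((Dd a b : ℤ) : ℝ) = 4 * (a : ℝ) ^ 3 - 27 * (b : ℝ) ^ 2 := by
    unfold Dd
    push_cast
    ring
  have h2 : 4 * |(a : ℝ)| ^ 3 ≤ Ht a b := le_max_left _ _
  have h3 : 27 * (b : ℝ) ^ 2 ≤ Ht a b := le_max_right _ _
  rw [h1]
  calc |4 * (a : ℝ) ^ 3 - 27 * (b : ℝ) ^ 2| ≤ |4 * (a : ℝ) ^ 3| + |27 * (b : ℝ) ^ 2| :=
        abs_sub _ _
    _ = 4 * |(a : ℝ)| ^ 3 + 27 * (b : ℝ) ^ 2 := by
        rw [abs_mul, abs_pow, abs_of_pos (by norm_num : (0 : ℝ) < 4),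
          abs_of_nonneg (by positivity : (0 : ℝ) ≤ 27 * (b : ℝ) ^ 2)]
    _ ≤ 2 * Ht a b := by linarith

theorem Ht_le (a b : ℤ) : Ht a b ≤ 5 * Mx a b := by
  have h1 : ((Dd a b : ℤ) : ℝ) = 4 * (a : ℝ) ^ 3 - 27 * (b : ℝ) ^ 2 := by
    unfold Dd
    push_cast
    ring
  have h2 : |(a : ℝ)| ^ 3 ≤ Mx a b := le_max_left _ _
  have h3 : |((Dd a b : ℤ) : ℝ)| ≤ Mx a b := le_max_right _ _
  have h0 : 0 ≤ |(a : ℝ)| ^ 3 := by positivity
  unfold Ht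
  refine max_le (by linarith) ?_
  have h4 : 27 * (b : ℝ) ^ 2 = 4 * (a : ℝ) ^ 3 - ((Dd a b : ℤ) : ℝ) := by
    rw [h1]
    ring
  have h5 : 4 * (a : ℝ) ^ 3 ≤ 4 * |(a : ℝ)| ^ 3 := by
    have := le_abs_self ((a : ℝ) ^ 3)
    rw [abs_pow] at this
    linarith
  have h6 := neg_abs_le ((Dd a b : ℤ) : ℝ)
  linarith

theorem Ht_pos {a b : ℤ} (h : Dd a b ≠ 0) : 0 < Ht a b := by
  have h1 : (0 : ℝ) < |((Dd a b : ℤ) : ℝ)| := abs_pos.2 (by exact_mod_cast h)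
  have := abs_Dd_le a b
  linarith

/-- the set as in `FH/Fin.lean` -/
theorem MV_eq (f : ℤ → ℤ → ℝ) (σ C X : ℝ) :
    MV f σ C X = HV (fun a b => C * f a b ^ σ ≤ Ht a b) X := rfl

theorem finm (h1 : S_UPg Cn 2) (h2 : S_LO) (h3 : S_GAIN) : S_FINM := by
  intro f B σ C hB hf hσ1 hσ2 hC
  have hσ0 : 0 < σ := by linarith
  refine ⟨fun X => by rw [MV_eq]; exact HV_fin _ X, ?_⟩
  obtain ⟨lam, hlam⟩ : ∃ lam : ℝ, lam = 1 - 1 / σ := ⟨_, rfl⟩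
  have hl0 : 0 < lam := by
    rw [hlam, sub_pos, div_lt_one hσ0]
    exact hσ1
  have hl1 : lam < 1 / 6 := by
    have : 5 / 6 < 1 / σ := by
      rw [lt_div_iff₀ hσ0]
      linarith
    rw [hlam]
    linarith
  have e1 : 6 / σ - 1 = 5 - 6 * lam := by
    rw [hlam]
    field_simp
    ring
  have e2 : 96 * (1 - 1 / σ) = 48 * 2 * lam := by
    rw [hlam]
    ring
  rw [e1, e2]
  simp only [MV_eq]
  refine lim_HV two_pos h1 hl0 hl1 _ ?_ ?_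
  · obtain ⟨K, hK, h⟩ := cond_unst h3 hσ1 hlam (Real.log 5 - Real.log C)
    refine ⟨K, hK, fun a b hab hP => h a b hab ?_⟩
    have hN : (1 : ℝ) ≤ Nc a b := by exact_mod_cast Nc_pos a b
    have hN0 : (0 : ℝ) < Nc a b := by linarith
    have g1 : (Nc a b : ℝ) ^ σ ≤ f a b ^ σ :=
      Real.rpow_le_rpow hN0.le (hf a b hab).1 hσ0.le
    have g2 : C * (Nc a b : ℝ) ^ σ ≤ 5 * Mx a b :=
      (mul_le_mul_of_nonneg_left g1 hC.le).trans (hP.trans (Ht_le a b))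
    have hNs : 0 < (Nc a b : ℝ) ^ σ := Real.rpow_pos_of_pos hN0 σ
    have g3 := Real.log_le_log (mul_pos hC hNs) g2
    rw [Real.log_mul hC.ne' hNs.ne', Real.log_mul (by norm_num) (Mx_pos hab.1).ne',
      Real.log_rpow hN0] at g3
    linarith
  · intro ε hε hε1
    obtain ⟨A, hA1, hA⟩ := cond_low hσ1 hlam B (Real.log C + Real.log 2) hB
    obtain ⟨X₀, hX₀, h⟩ := h2 lam A ε hl0 hl1 hA1 hε hε1
    refine ⟨X₀, hX₀, fun X hX => ?_⟩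
    obtain ⟨F, hF, h3⟩ := h X hX
    refine ⟨F, fun x hx => ?_, ?_⟩
    · obtain ⟨g1, g2, g3, g4⟩ := hF x hx
      refine ⟨g1, g2, g3, ?_⟩
      have hD : (0 : ℝ) < |((Dd x.1 x.2 : ℤ) : ℝ)| := abs_pos.2 (by exact_mod_cast g1.1)
      have hN : (1 : ℝ) ≤ Nc x.1 x.2 := by exact_mod_cast Nc_pos x.1 x.2
      have k3 := hA (Nc x.1 x.2) _ (f x.1 x.2) hN hD (hf _ _ g1).1 (hf _ _ g1).2 g4
      have k4 := Real.log_le_log hD (abs_Dd_le x.1 x.2)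
      rw [Real.log_mul (by norm_num) (Ht_pos g1.1).ne'] at k4
      have hf0 : 0 < f x.1 x.2 := by linarith [(hf _ _ g1).1]
      have hfs : 0 < f x.1 x.2 ^ σ := Real.rpow_pos_of_pos hf0 σ
      rw [← Real.log_le_log_iff (mul_pos hC hfs) (Ht_pos g1.1), Real.log_mul hC.ne' hfs.ne',
        Real.log_rpow hf0]
      linarith
    · convert h3 using 5
      ring

end Pool.Agent.N380.SS
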